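import Pool.Agent.TH300S.Final

/-!
# Selberg's eigenvalue conjecture for eigenfunctions with conditions on vertical lines

For a positive integer `N`, a real number `μ` and a sign `ε` let `mult N μ` be the dimension of the
space of smooth `Γ(N)`-invariant square-integrable functions `f` on the upper half plane with
`-y² (f_xx + f_yy) = μ f`, and let `signMult ε N μ` be the dimension of its subspace of functions
with `f(-conj z) = ε f(z)`.

* For `μ ≠ 0` and every odd prime number `q = 2 n + 1` which does not divide `N`,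
  `n * mult N μ + 2 * signMult ε N μ ≤ signMult ε (N q) μ`.
* Let `r > 0` and `θ` be rational numbers, `ε` and `δ` signs, and `T` a linear map from the functions
  on the upper half plane to `ℂ ^ k`. Then Selberg's eigenvalue conjecture is equivalent to each of
  the following statements on the eigenfunctions for the groups `Γ(N)` with `0 < μ < 1/4`:
  those with `f(z + r) = exp(2 π i θ) f(z)` and `T f = 0` vanish;
  those which satisfy `f(2 j r - conj z) = ε δ ^ j f(z)` for all integers `j` and `T f = 0` vanish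
  (for `δ = 1` these are Dirichlet or Neumann conditions on all the lines `Re z = j r`, for `δ = -1`
  the two conditions alternate);
  `signMult ε M μ = o(M log log M)`;
  for each `N` there is an odd prime number `q = 2 n + 1` not dividing `N` with
  `signMult ε (N q) μ < n`.
-/

open Pool.Agent.TH652.Sel Pool.Agent.TH300S

namespace Pool.Agent.Results.MP_a812b2_nt.DirichletNeumannForms

/-- **Parity and the growth of multiplicities, and Selberg's conjecture for eigenfunctions with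
conditions on vertical lines.** -/
theorem result :
    (∀ (ε : ℤˣ) (N n : ℕ), 0 < N → (2 * n + 1).Prime → ¬ (2 * n + 1) ∣ N → ∀ μ : ℝ, μ ≠ 0 →
      (n : Cardinal) * mult N μ + 2 * signMult ε N μ ≤ signMult ε (N * (2 * n + 1)) μ) ∧
    ∀ (r θ : ℚ), 0 < r → ∀ (ε δ : ℤˣ) (k : ℕ) (T : (UpperHalfPlane → ℂ) →ₗ[ℂ] (Fin k → ℂ)),
      List.TFAE [
        ∀ Γ : Subgroup (Matrix.SpecialLinearGroup (Fin 2) ℤ),
          (∃ N : ℕ, 0 < N ∧ CongruenceSubgroup.Gamma N ≤ Γ) →
          ∀ (f : ℂ → ℂ) (μ : ℝ), 0 < μ → μ < 1 / 4 →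
            ContDiffOn ℝ (⊤ : ℕ∞) f {w : ℂ | 0 < w.im} →
            (∀ γ ∈ Γ, ∀ z : UpperHalfPlane,
              f ((γ • z : UpperHalfPlane) : ℂ) = f (z : ℂ)) →
            (∀ z : UpperHalfPlane,
              -((z.im : ℂ) ^ 2) *
                (deriv (fun s : ℝ => deriv (fun t : ℝ =>
                    f ((t : ℂ) + (z.im : ℂ) * Complex.I)) s) z.re
                 + deriv (fun s : ℝ => deriv (fun t : ℝ =>
                    f ((z.re : ℂ) + (t : ℂ) * Complex.I)) s) z.im)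
                = (μ : ℂ) * f (z : ℂ)) →
            (∀ γ : Matrix.SpecialLinearGroup (Fin 2) ℤ,
              MeasureTheory.IntegrableOn (fun w : ℂ => ‖f w‖ ^ 2 / w.im ^ 2)
                ((fun z : UpperHalfPlane => ((γ • z : UpperHalfPlane) : ℂ)) '' ModularGroup.fd)) →
            ∀ z : UpperHalfPlane, f (z : ℂ) = 0,
        ∀ (N : ℕ) (f : ℂ → ℂ) (μ : ℝ), 0 < N → 0 < μ → μ < 1 / 4 →
          IsEigenfunction (CongruenceSubgroup.Gamma N) μ f →
          (∀ z : UpperHalfPlane, f ((z : ℂ) + (r : ℂ)) =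
            Complex.exp (2 * Real.pi * Complex.I * (θ : ℂ)) * f (z : ℂ)) →
          T (fun z : UpperHalfPlane => f (z : ℂ)) = 0 → ∀ z : UpperHalfPlane, f (z : ℂ) = 0,
        ∀ (N : ℕ) (f : ℂ → ℂ) (μ : ℝ), 0 < N → 0 < μ → μ < 1 / 4 →
          IsEigenfunction (CongruenceSubgroup.Gamma N) μ f →
          (∀ (j : ℤ) (z : UpperHalfPlane),
            f (2 * (j : ℂ) * (r : ℂ) - (starRingEnd ℂ) (z : ℂ)) =
              (((ε * δ ^ j : ℤˣ) : ℤ) : ℂ) * f (z : ℂ)) →
          T (fun z : UpperHalfPlane => f (z : ℂ)) = 0 → ∀ z : UpperHalfPlane, f (z : ℂ) = 0,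
        ∀ μ : ℝ, 0 < μ → μ < 1 / 4 → ∀ c : ℝ, 0 < c → ∃ M₀ : ℕ, ∀ M : ℕ, M₀ ≤ M → ∀ d : ℕ,
          (d : Cardinal) ≤ signMult ε M μ →
            (d : ℝ) ≤ c * ((M : ℝ) * Real.log (Real.log (M : ℝ))),
        ∀ μ : ℝ, 0 < μ → μ < 1 / 4 → ∀ N : ℕ, 0 < N → ∃ n : ℕ, (2 * n + 1).Prime ∧
          ¬ (2 * n + 1) ∣ N ∧ signMult ε (N * (2 * n + 1)) μ < (n : ℕ)] := by
  refine ⟨fun ε N n hN hq hqN μ hμ => signMult_mul_le ε hN hq hqN hμ, ?_⟩
  intro r θ hr ε δ k T
  have h := Pool.Agent.TH300S.selberg_tfae r θ hr ε δ T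
  have e : SelbergConjecture ↔
      ∀ Γ : Subgroup (Matrix.SpecialLinearGroup (Fin 2) ℤ),
        (∃ N : ℕ, 0 < N ∧ CongruenceSubgroup.Gamma N ≤ Γ) →
        ∀ (f : ℂ → ℂ) (μ : ℝ), 0 < μ → μ < 1 / 4 →
          ContDiffOn ℝ (⊤ : ℕ∞) f {w : ℂ | 0 < w.im} →
          (∀ γ ∈ Γ, ∀ z : UpperHalfPlane,
            f ((γ • z : UpperHalfPlane) : ℂ) = f (z : ℂ)) →
          (∀ z : UpperHalfPlane,
            -((z.im : ℂ) ^ 2) *
              (deriv (fun s : ℝ => deriv (fun t : ℝ =>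
                  f ((t : ℂ) + (z.im : ℂ) * Complex.I)) s) z.re
               + deriv (fun s : ℝ => deriv (fun t : ℝ =>
                  f ((z.re : ℂ) + (t : ℂ) * Complex.I)) s) z.im)
              = (μ : ℂ) * f (z : ℂ)) →
          (∀ γ : Matrix.SpecialLinearGroup (Fin 2) ℤ,
            MeasureTheory.IntegrableOn (fun w : ℂ => ‖f w‖ ^ 2 / w.im ^ 2)
              ((fun z : UpperHalfPlane => ((γ • z : UpperHalfPlane) : ℂ)) '' ModularGroup.fd)) →
          ∀ z : UpperHalfPlane, f (z : ℂ) = 0 := by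
    constructor
    · intro h Γ hΓ f μ h1 h2 h3 h4 h5 h6
      exact h Γ hΓ f μ h1 h2 ⟨h3, h4, h5, h6⟩
    · intro h Γ hΓ f μ h1 h2 ⟨h3, h4, h5, h6⟩
      exact h Γ hΓ f μ h1 h2 h3 h4 h5 h6
  rw [e] at h
  exact h

end Pool.Agent.Results.MP_a812b2_nt.DirichletNeumannForms
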