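import Pool.Agent.TH652.Sel.Final

/-!
# Selberg's eigenvalue conjecture and the growth of the multiplicity of an exceptional eigenvalue

For a positive integer `N` and a real number `μ` let `mult N μ` be the dimension of the space of
smooth `Γ(N)`-invariant functions `f` on the upper half plane which are square-integrable on
`Γ(N) \ ℍ` and satisfy `-y² (f_xx + f_yy) = μ f`.

* For `μ ≠ 0` and every prime number `q` which does not divide `N`, one has
  `(q + 1) * mult N μ ≤ mult (N * q) μ`. In fact, if `f` runs through a basis of the eigenspace for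
  `Γ(N)`, then the functions `f(z)` and `f((z + N j) / q)`, `0 ≤ j < q`, are linearly independent
  eigenfunctions for `Γ(N q)`.
* Hence one eigenvalue `0 < μ < 1/4` at one level forces `mult M μ / M` to be unbounded, and
  Selberg's eigenvalue conjecture holds if and only if, for each `0 < μ < 1/4`, the multiplicity
  `mult M μ` is at most `C * M` for a constant `C` and all `M ≥ 1`, and also if and only if for all
  such `μ` and all `N ≥ 1` there is a prime number `q` which does not divide `N` with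
  `mult (N * q) μ ≤ q`.
-/

open Pool.Agent.TH652.Sel

namespace Pool.Agent.Results.MP_a812b2_nt.MultiplicityGrowth

/-- **The multiplicity of a nonzero eigenvalue grows at least by the factor `q + 1` from `Γ(N)` to
`Γ(N q)`, and Selberg's eigenvalue conjecture is equivalent to a linear bound for the
multiplicities of exceptional eigenvalues.** -/
theorem result :
    (∀ N q : ℕ, 0 < N → q.Prime → ¬ q ∣ N → ∀ μ : ℝ, μ ≠ 0 →
      ((q : Cardinal) + 1) * mult N μ ≤ mult (N * q) μ) ∧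
    List.TFAE [
      ∀ Γ : Subgroup (Matrix.SpecialLinearGroup (Fin 2) ℤ),
        (∃ N : ℕ, 0 < N ∧ CongruenceSubgroup.Gamma N ≤ Γ) →
        ∀ (f : ℂ → ℂ) (μ : ℝ), 0 < μ → μ < 1 / 4 →
          ContDiffOn ℝ (⊤ : ℕ∞) f {w : ℂ | 0 < w.im} →
          (∀ γ ∈ Γ, ∀ z : UpperHalfPlane,
            f ((γ • z : UpperHalfPlane) : ℂ) = f (z : ℂ)) →
          (∀ z : UpperHalfPlane,
            -((z.im : ℂ) ^ 2) *
              (deriv (fun s : ℝ => deriv (fun t : ℝ =>
                  f ((t : ℂ) + (z.im : ℂ) * Complex.I)) s) z.re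
               + deriv (fun s : ℝ => deriv (fun t : ℝ =>
                  f ((z.re : ℂ) + (t : ℂ) * Complex.I)) s) z.im)
              = (μ : ℂ) * f (z : ℂ)) →
          (∀ γ : Matrix.SpecialLinearGroup (Fin 2) ℤ,
            MeasureTheory.IntegrableOn (fun w : ℂ => ‖f w‖ ^ 2 / w.im ^ 2)
              ((fun z : UpperHalfPlane => ((γ • z : UpperHalfPlane) : ℂ)) '' ModularGroup.fd)) →
          ∀ z : UpperHalfPlane, f (z : ℂ) = 0,
      ∀ μ : ℝ, 0 < μ → μ < 1 / 4 → ∃ C : ℕ, ∀ M : ℕ, 0 < M → mult M μ ≤ (C * M : ℕ),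
      ∀ μ : ℝ, 0 < μ → μ < 1 / 4 → ∀ N : ℕ, 0 < N →
        ∃ q : ℕ, q.Prime ∧ ¬ q ∣ N ∧ mult (N * q) μ ≤ (q : ℕ)] := by
  refine ⟨fun N q hN hq hqN μ hμ => rank_mul_le hN hq hqN hμ, ?_⟩
  have h := selberg_tfae
  have e : SelbergConjecture ↔
      ∀ Γ : Subgroup (Matrix.SpecialLinearGroup (Fin 2) ℤ),
        (∃ N : ℕ, 0 < N ∧ CongruenceSubgroup.Gamma N ≤ Γ) →
        ∀ (f : ℂ → ℂ) (μ : ℝ), 0 < μ → μ < 1 / 4 →
          ContDiffOn ℝ (⊤ : ℕ∞) f {w : ℂ | 0 < w.im} →
          (∀ γ ∈ Γ, ∀ z : UpperHalfPlane,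
            f ((γ • z : UpperHalfPlane) : ℂ) = f (z : ℂ)) →
          (∀ z : UpperHalfPlane,
            -((z.im : ℂ) ^ 2) *
              (deriv (fun s : ℝ => deriv (fun t : ℝ =>
                  f ((t : ℂ) + (z.im : ℂ) * Complex.I)) s) z.re
               + deriv (fun s : ℝ => deriv (fun t : ℝ =>
                  f ((z.re : ℂ) + (t : ℂ) * Complex.I)) s) z.im)
              = (μ : ℂ) * f (z : ℂ)) →
          (∀ γ : Matrix.SpecialLinearGroup (Fin 2) ℤ,
            MeasureTheory.IntegrableOn (fun w : ℂ => ‖f w‖ ^ 2 / w.im ^ 2)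
              ((fun z : UpperHalfPlane => ((γ • z : UpperHalfPlane) : ℂ)) '' ModularGroup.fd)) →
          ∀ z : UpperHalfPlane, f (z : ℂ) = 0 := by
    constructor
    · intro h Γ hΓ f μ h1 h2 h3 h4 h5 h6
      exact h Γ hΓ f μ h1 h2 ⟨h3, h4, h5, h6⟩
    · intro h Γ hΓ f μ h1 h2 ⟨h3, h4, h5, h6⟩
      exact h Γ hΓ f μ h1 h2 h3 h4 h5 h6
  rw [e] at h
  exact h

end Pool.Agent.Results.MP_a812b2_nt.MultiplicityGrowth
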