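import Mathlib
import Pool.Agent.TH949.TX.Sym4

/-!
# Selberg's eigenvalue conjecture: exceptional eigenvalues and small Hecke eigenvalues `λ(p⁴)` at every scale

Let `f` be a Maass newform for a congruence subgroup (weight `0`, any level, any nebentypus) with Laplace eigenvalue
`lam`. For the primes `p ∉ S` (`S` the primes dividing the level) let `a_p, b_p` be the Satake parameters and

`λ(p⁴) = a_p⁴ + a_p³ b_p + a_p² b_p² + a_p b_p³ + b_p⁴`.

We show: if for some `c ≥ 1/2` and `δ > 0` there are arbitrarily large `X` with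

`∑_{X^{1-δ} ≤ p ≤ X} max(0, 1 - |λ(p⁴)|²) < X^c`

(for example: arbitrarily large `X` such that fewer than `X^c` primes `p ∈ [X^{1-δ}, X]` have `|λ(p⁴)| < 1`), then
`lam ≥ 1/4 - (c/8)²` and `p^{-c/8} ≤ |a_p|, |b_p| ≤ p^{c/8}` for all `p ∉ S`; moreover all zeros and poles of
`L(s, Sym⁴ f × Sym⁴ f~) / ζ(s)` have real part `≤ c`. In other words: if `lam = 1/4 - ν²`, `ν > 0`, is an exceptional
eigenvalue, then for every `c < 8 ν` and **all** large `X` more than `X^c` primes `p ∈ [X^{1-δ}, X]` have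
`|λ(p⁴)| < 1`. This is informative for `c < 7/8`, as `ν ≤ 7/64` (Kim, Sarnak).

`SymmetricFourthSmall` (helper810, by our general theorem on `GL_n`) has the same conclusion on `lam` if
`#{p ≤ x : |λ(p⁴)| < 1} ≤ C x^c` for **all** large `x` (or if the series `∑_p max(0, 1 - |λ(p⁴)|²) p^{-c}` converges):
there a fact on `f` at all scales is needed; here one unbounded sequence of intervals `[X^{1-δ}, X]` is enough.

The structure `MaassSym4` lists what is used of `f`: the symmetric fourth power lift `Π` of `f` is a cuspidal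
representation of `GL_5` (Kim; Kim and Shahidi: the forms for which the lift is not cuspidal are of dihedral,
tetrahedral or octahedral type and satisfy Selberg's conjecture) with the parameters `4μ, 2μ, 0, -2μ, -4μ` at the real
place, in the form of the classical facts on `L(s, Π × Π~)` (structure `CuspidalRep` of `SmallEigenvaluesAllPlaces`,
`MP_08cfa9_nt`).

The proof: for real `μ = ν > 0` the Gamma factor `Γ_ℝ(s - 8 ν)` has a pole at `s = 8 ν`; as the completed function is
entire there, `F(s) = L(s, Π × Π~) / ζ(s)` has a zero at `8 ν`. The explicit formula for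
`log F(s) = ∑ d(q) q^{-s}` with the weight `exp(-(log q - Y)² / 4 η Y)` (see `TemperedEveryScale`, `MP_08cfa9_nt`)
shows that negative coefficients, `d(p) = |λ(p⁴)|² - 1 < 0`, must contribute at every scale `Y`; the prime powers do not
matter as `c ≥ 1/2`.
-/

set_option autoImplicit false

namespace Pool.Agent.Results.MP_a812b2_nt.SymFourEveryScale

open Pool.Agent.W189.TP (PS)
open Pool.Agent.TH949.TX (MaassSym4 sym4 lam4 Sing sym4_all)

open scoped Classical in
/-- **A lower bound for the Laplace eigenvalue by the Hecke eigenvalues `λ(p⁴)` in a sequence of intervals.** -/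
theorem result (S : Finset Nat.Primes) (lam : ℝ) (a b : PS S → ℂ) (h : MaassSym4 S lam a b) (c δ : ℝ)
    (hc : 1 / 2 ≤ c) (hδ : 0 < δ)
    (hX : ∀ X₀ : ℝ, ∃ X : ℝ, X₀ ≤ X ∧ (∑' p : PS S,
      if X ^ (1 - δ) ≤ ((p.1 : ℕ) : ℝ) ∧ ((p.1 : ℕ) : ℝ) ≤ X then max 0 (1 - ‖lam4 a b p‖ ^ 2) else 0) < X ^ c) :
    1 / 4 - (c / 8) ^ 2 ≤ lam ∧
    (∀ p : PS S, |Real.logb ((p.1 : ℕ) : ℝ) ‖a p‖| ≤ c / 8 ∧ |Real.logb ((p.1 : ℕ) : ℝ) ‖b p‖| ≤ c / 8) ∧
    ¬ Sing (sym4 a b) c := by
  have key : ¬ (lam < 1 / 4 - (c / 8) ^ 2 ∨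
      (∃ p : PS S, c / 8 < |Real.logb ((p.1 : ℕ) : ℝ) ‖a p‖| ∨ c / 8 < |Real.logb ((p.1 : ℕ) : ℝ) ‖b p‖|) ∨
      Sing (sym4 a b) c) := by
    intro hcon
    obtain ⟨X₀, hX₀⟩ := Filter.eventually_atTop.1 (sym4_all h hδ hc hcon)
    obtain ⟨X, hX1, hX2⟩ := hX X₀
    exact absurd hX2 (not_lt.2 (hX₀ X hX1))
  rw [not_or, not_or, not_lt] at key
  obtain ⟨k1, k2, k3⟩ := key
  refine ⟨k1, fun p => ?_, k3⟩
  constructor
  · by_contra h1
    exact k2 ⟨p, Or.inl (not_le.1 h1)⟩
  · by_contra h1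
    exact k2 ⟨p, Or.inr (not_le.1 h1)⟩

end Pool.Agent.Results.MP_a812b2_nt.SymFourEveryScale
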