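import Mathlib
import Pool.Agent.TH949.RES.RAM2

/-!
# Selberg's eigenvalue conjecture: a lower bound for the eigenvalue by the Hecke eigenvalues `λ(p⁴)`

Let `f` be a Maass newform for a congruence subgroup (weight `0`, any level, any nebentypus) with Laplace
eigenvalue `lam = 1/4 - μ²`. For the primes `p ∉ S` (`S` the primes dividing the level) let `a_p, b_p` be the Satake
parameters and

`λ(p⁴) = a_p⁴ + a_p³ b_p + a_p² b_p² + a_p b_p³ + b_p⁴`.

We show: if `c` is a real number such that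

* the series `∑_p max(0, 1 - |λ(p⁴)|²) p^{-c}` converges, or
* the number of the primes `p ≤ x` with `|λ(p⁴)| < 1` and `|a_p| = |b_p| = 1` is `O(x^c)`,

then `c ≥ 25/49` and `lam ≥ 1/4 - (c/8)²`. In other words: a counterexample `f` to Selberg's conjecture with
eigenvalue `1/4 - ν²`, `ν > 0`, has for every `c < 8 ν` more than `x^c` tempered primes `p ≤ x` (for arbitrarily large
`x`) with `|λ(p⁴)| < 1`: a violation of the Ramanujan conjecture at the real place forces the Ramanujan conjecture,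
with an angle in a restricted set, at many finite primes. (The asymptotic formulas known for the moments of
`λ(p)`, of order at most `8`, do not exclude that `|λ(p⁴)| = 1` for almost all primes: they are the moments of the
distribution of `λ(p)²` with the masses `1/3, 1/2, 1/6` at `0, 1, 3`.)

The structure `MaassNewform` lists what is used of `f`: the local components are unitary, and the symmetric
fourth power lift `Π` of `f` is a cuspidal representation of `GL_5` (Kim; Kim and Shahidi: the forms for which the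
lift is not cuspidal are of dihedral, tetrahedral or octahedral type and satisfy Selberg's conjecture) with the
parameters `4μ, 2μ, 0, -2μ, -4μ` at the real place, in the form of the classical facts on `L(s, Π × Π~)`
(structure `CuspidalRep`). For real `μ = ν > 0` the Gamma factor `Γ_ℝ(s - 8 ν)` has a pole at `s = 8 ν`; as the
completed function is entire there, `L(8 ν, Π × Π~) = 0`, and Landau's lemma applies. The proof of the general
theorem on `GL_n` is in `Pool/Agent/TH949/RES` (helper949).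
-/

set_option autoImplicit false

namespace Pool.Agent.Results.MP_a812b2_nt.SymmetricFourthSmall

open Pool.Agent.TH949.RES
open Pool.Agent.W189.TP (PS)

/-- The Satake parameters `a⁴, a³ b, a² b², a b³, b⁴` of the symmetric fourth power at `p`. -/
noncomputable def sym4 {S : Finset Nat.Primes} (a b : PS S → ℂ) (p : PS S) (i : Fin 5) : ℂ :=
  a p ^ (4 - (i : ℕ)) * b p ^ (i : ℕ)

/-- The Hecke eigenvalue `λ(p⁴)`. -/
noncomputable def lam4 {S : Finset Nat.Primes} (a b : PS S → ℂ) (p : PS S) : ℂ :=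
  a p ^ 4 + a p ^ 3 * b p + a p ^ 2 * b p ^ 2 + a p * b p ^ 3 + b p ^ 4

/-- A Maass newform `f` with Laplace eigenvalue `lam` for a congruence subgroup, given by the finite set `S` of the
primes dividing the level and the Satake parameters `a p`, `b p`, `p ∉ S`, with the facts on `f` that are used. -/
structure MaassNewform (S : Finset Nat.Primes) (lam : ℝ) (a b : PS S → ℂ) : Prop where
  /-- `π_p` is unitary: tempered or in the complementary series -/
  unitary : ∀ p, (‖a p‖ = 1 ∧ ‖b p‖ = 1) ∨ b p = ((starRingEnd ℂ) (a p))⁻¹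
  /-- the symmetric fourth power lift `Π` is cuspidal; if `lam = 1/4 - μ²` its parameters at the real place are
  `4μ, 2μ, 0, -2μ, -4μ`, so that the Gamma factors of `L(s, Π × Π~)` are `Γ_ℝ(s + 2 (i - j) μ)`, `0 ≤ i, j ≤ 4` -/
  lift : ∃ (μ : ℂ) (β : Nat.Primes → Fin (5 ^ 2) → ℂ) (κ : Fin (5 ^ 2 - 1) → ℂ), (lam : ℂ) = 1 / 4 - μ ^ 2 ∧
    CuspidalRep S (sym4 a b) β κ ∧
    Multiset.map κ Finset.univ.val + {0} =
      Multiset.map (fun x : Fin 5 × Fin 5 => 2 * (((x.1 : ℕ) : ℂ) - ((x.2 : ℕ) : ℂ)) * μ) Finset.univ.val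

theorem sum_sym4 {S : Finset Nat.Primes} (a b : PS S → ℂ) (p : PS S) : ∑ i, sym4 a b p i = lam4 a b p := by
  simp only [sym4, lam4, Fin.sum_univ_five]
  norm_num

/-- a complementary series component has `|λ(p⁴)| ≥ 5` -/
theorem tempered_of_small {S : Finset Nat.Primes} {a b : PS S → ℂ} {p : PS S} (h0 : a p ≠ 0)
    (h : (‖a p‖ = 1 ∧ ‖b p‖ = 1) ∨ b p = ((starRingEnd ℂ) (a p))⁻¹) (hs : ‖lam4 a b p‖ < 1) :
    ‖a p‖ = 1 ∧ ‖b p‖ = 1 := by
  rcases h with h | h
  · exact h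
  exfalso
  set z := a p with hz
  set w := (starRingEnd ℂ) z with hw
  have hw0 : w ≠ 0 := by rwa [hw, Ne, map_eq_zero]
  have hr : z * w = ((‖z‖ ^ 2 : ℝ) : ℂ) := by
    rw [hw, Complex.mul_conj, Complex.normSq_eq_norm_sq]
  have hn : (0 : ℝ) < ‖z‖ ^ 2 := by positivity
  have h1 : lam4 a b p * w ^ 4 = (((‖z‖ ^ 2) ^ 4 + (‖z‖ ^ 2) ^ 3 + (‖z‖ ^ 2) ^ 2 + ‖z‖ ^ 2 + 1 : ℝ) : ℂ) := by
    have h2 : lam4 a b p * w ^ 4 = (z * w) ^ 4 + (z * w) ^ 3 + (z * w) ^ 2 + z * w + 1 := by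
      unfold lam4
      rw [← hz, h]
      field_simp
    rw [h2, hr]
    push_cast
    ring
  have h3 : ‖lam4 a b p * w ^ 4‖ = (‖z‖ ^ 2) ^ 4 + (‖z‖ ^ 2) ^ 3 + (‖z‖ ^ 2) ^ 2 + ‖z‖ ^ 2 + 1 := by
    rw [h1, Complex.norm_real, Real.norm_eq_abs, abs_of_pos (by positivity)]
  rw [norm_mul, norm_pow, hw, RCLike.norm_conj] at h3
  have h4 : ‖lam4 a b p‖ * ‖z‖ ^ 4 ≤ 1 * ‖z‖ ^ 4 := mul_le_mul_of_nonneg_right hs.le (by positivity)
  nlinarith [pow_pos hn 2, pow_pos hn 3, pow_pos hn 4, hn]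

/-- the exponents which are admissible for the general theorem -/
theorem admissible {S : Finset Nat.Primes} {lam : ℝ} {a b : PS S → ℂ} (h : MaassNewform S lam a b) {c : ℝ}
    (hc : c < 25 / 49 ∨ lam < 1 / 4 - (c / 8) ^ 2) :
    ∃ (β : Nat.Primes → Fin (5 ^ 2) → ℂ) (κ : Fin (5 ^ 2 - 1) → ℂ), CuspidalRep S (sym4 a b) β κ ∧
      Admissible S (sym4 a b) β κ c := by
  obtain ⟨μ, β, κ, hμ, hrep, hκ⟩ := h.lift
  refine ⟨β, κ, hrep, ?_⟩
  rcases lt_or_ge c (25 / 49) with hc1 | hc1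
  · left
    norm_num
    linarith
  replace hc : lam < 1 / 4 - (c / 8) ^ 2 := hc.resolve_left (not_lt.2 hc1)
  right; right; right
  -- `μ² = 1/4 - lam > (c/8)²`
  set ν : ℝ := √(1 / 4 - lam) with hν
  have h1 : (c / 8) ^ 2 < 1 / 4 - lam := by linarith
  have h2 : c / 8 < ν := by
    rw [hν]
    exact Real.lt_sqrt_of_sq_lt h1
  have h3 : ν ^ 2 = 1 / 4 - lam := Real.sq_sqrt (by nlinarith [sq_nonneg (c / 8)])
  have h4 : μ ^ 2 = (ν : ℂ) ^ 2 := by
    have h5 : ((ν ^ 2 : ℝ) : ℂ) = ((1 / 4 - lam : ℝ) : ℂ) := by rw [h3]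
    push_cast at h5
    rw [h5, hμ]
    ring
  have hν0 : 0 < ν := by
    refine lt_of_le_of_lt ?_ h2
    linarith
  have hmem : (-((8 * ν : ℝ) : ℂ)) ∈ Multiset.map κ Finset.univ.val := by
    have h5 : (-((8 * ν : ℝ) : ℂ)) ∈ Multiset.map κ Finset.univ.val + {0} := by
      rw [hκ]
      rcases sq_eq_sq_iff_eq_or_eq_neg.1 h4 with h6 | h6
      · refine Multiset.mem_map.2 ⟨(0, 4), Finset.mem_univ_val _, ?_⟩
        rw [h6]
        push_cast
        norm_num
      · refine Multiset.mem_map.2 ⟨(4, 0), Finset.mem_univ_val _, ?_⟩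
        rw [h6]
        push_cast
        norm_num
    rcases Multiset.mem_add.1 h5 with h6 | h6
    · exact h6
    · rw [Multiset.mem_singleton, neg_eq_zero] at h6
      have h7 : 8 * ν = 0 := by exact_mod_cast h6
      linarith
  obtain ⟨j, -, hj⟩ := Multiset.mem_map.1 hmem
  exact ⟨j, 8 * ν, hj, by linarith⟩

/-- **A lower bound for the Laplace eigenvalue by the Hecke eigenvalues `λ(p⁴)`.** -/
theorem result (S : Finset Nat.Primes) (lam : ℝ) (a b : PS S → ℂ) (h : MaassNewform S lam a b) (c : ℝ)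
    (hc : (Summable fun p : PS S => max 0 (1 - ‖lam4 a b p‖ ^ 2) * ((p.1 : ℕ) : ℝ) ^ (-c)) ∨
      ∃ C X : ℝ, ∀ x : ℝ, X ≤ x →
        (({p : PS S | ((p.1 : ℕ) : ℝ) ≤ x ∧ ‖lam4 a b p‖ < 1 ∧ ‖a p‖ = 1 ∧ ‖b p‖ = 1}.ncard : ℕ) : ℝ) ≤ C * x ^ c) :
    25 / 49 ≤ c ∧ 1 / 4 - (c / 8) ^ 2 ≤ lam := by
  by_contra hcon
  have hc' : c < 25 / 49 ∨ lam < 1 / 4 - (c / 8) ^ 2 := by
    rw [not_and_or, not_le, not_le] at hcon
    exact hcon
  obtain ⟨β, κ, hrep, hadm⟩ := admissible h hc'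
  have hm := ram_main' (by norm_num : 2 ≤ 5) hrep hadm
  have hn := ram_count (by norm_num : 2 ≤ 5) hrep hadm
  simp only [sum_sym4] at hm hn
  rcases hc with hc | ⟨C, X, hc⟩
  · exact hm hc
  obtain ⟨x, hx, hx2⟩ := hn C X
  have h0 : ∀ p, a p ≠ 0 := by
    intro p hp
    have := hrep.ne_zero p 0
    simp [sym4, hp] at this
  have hset : {p : PS S | ((p.1 : ℕ) : ℝ) ≤ x ∧ ‖lam4 a b p‖ < 1 ∧ ‖a p‖ = 1 ∧ ‖b p‖ = 1} =
      {p : PS S | ((p.1 : ℕ) : ℝ) ≤ x ∧ ‖lam4 a b p‖ < 1} := by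
    ext p
    simp only [Set.mem_ofPred_eq]
    constructor
    · rintro ⟨h1, h2, -⟩
      exact ⟨h1, h2⟩
    · rintro ⟨h1, h2⟩
      exact ⟨h1, h2, tempered_of_small (h0 p) (h.unitary p) h2⟩
  have h5 := hc x hx
  rw [hset] at h5
  exact absurd hx2 (not_lt.2 h5)

end Pool.Agent.Results.MP_a812b2_nt.SymmetricFourthSmall
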